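import Mathlib
import Pool.Agent.R439.QAB7

set_option autoImplicit false

namespace Pool.Agent.Results.MP_19aea4_nt.AllOddModuli

open Finset Pool.Agent.R439

/-- The polynomial ring `ℚ[q,a,b]`. -/
abbrev P3 : Type := MvPolynomial (Fin 3) ℚ

/-- The field `ℚ(q,a,b)`. -/
abbrev F : Type := FractionRing P3

/-- The variable `q`. -/
noncomputable def q : F := algebraMap P3 F (MvPolynomial.X 0)

/-- The variable `a`. -/
noncomputable def a : F := algebraMap P3 F (MvPolynomial.X 1)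

/-- The variable `b`. -/
noncomputable def b : F := algebraMap P3 F (MvPolynomial.X 2)

/-- The integral `[m] = (1 - q^m)/(1 - q)` in `ℚ(q,a,b)`. -/
noncomputable def qn (m : ℕ) : F := (1 - q ^ m) / (1 - q)

/-- The sum `L_n` of the problem. -/
noncomputable def L (n : ℕ) : F :=
  ∑ j ∈ range ((n - 1) / 2 + 1), b ^ j * qn (4 * j + 1) *
    (poch q (q ^ 2) j * poch (a * q) (q ^ 2) j * poch (q / a) (q ^ 2) j * poch (q / b) (q ^ 2) j) /
    (poch (q ^ 2) (q ^ 2) j * poch (a * q ^ 2) (q ^ 2) j * poch (q ^ 2 / a) (q ^ 2) j *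
      poch (b * q ^ 2) (q ^ 2) j)

/-- The sum `R_n` of the problem. -/
noncomputable def R (n : ℕ) : F :=
  ∑ j ∈ range n, b ^ j / q ^ (j * (j + 1) / 2) * qn (3 * j + 1) *
    (poch q (q ^ 2) j * poch (a * q) (q ^ 2) j * poch (q / a) (q ^ 2) j * poch (q / b) q j) /
    (poch q q j * poch (a * q) q j * poch (q / a) q j * poch (b * q ^ 2) (q ^ 2) j)

/-- The modulus `M_n = [n] Φ_n(q) (1 - a q^n) (a - q^n) (b - q^n)`, a polynomial in `q, a, b`. -/
noncomputable def M (n : ℕ) : P3 :=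
  (∑ i ∈ range n, MvPolynomial.X 0 ^ i) *
    Polynomial.aeval (MvPolynomial.X 0 : P3) (Polynomial.cyclotomic n ℚ) *
    ((1 - MvPolynomial.X 1 * MvPolynomial.X 0 ^ n) * (MvPolynomial.X 1 - MvPolynomial.X 0 ^ n) *
      (MvPolynomial.X 2 - MvPolynomial.X 0 ^ n))

open GL.AB3 in
theorem eq_q : eqF q = GL.AB3.q := by rw [q, eqF_am, toA_X0]; rfl
open GL.AB3 in
theorem eq_a : eqF a = GL.AB3.a := by rw [a, eqF_am, toA_X1]; rfl
open GL.AB3 in
theorem eq_b : eqF b = GL.AB3.b := by rw [b, eqF_am, toA_X2]; rfl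

theorem poch_map {A B : Type*} [Field A] [Field B] (f : A ≃+* B) (x y : A) (k : ℕ) :
    f (poch x y k) = poch (f x) (f y) k := by
  rw [poch, poch, map_prod]
  refine prod_congr rfl fun i _ => ?_
  rw [map_sub, map_one, map_mul, map_pow]

open GL.AB3 in
theorem L_eq (m : ℕ) : eqF (L (2 * m + 1)) = SL m / (1 - GL.AB3.q) := by
  have h : (2 * m + 1 - 1) / 2 + 1 = m + 1 := by omega
  rw [L, SL, h, sum_div, map_sum]
  refine sum_congr rfl fun j _ => ?_
  simp only [qn, map_mul, map_div₀, map_sub, map_one, map_pow, poch_map, eq_q, eq_a, eq_b]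
  rw [Pool.Agent.R439.AB.PL]
  ring

open GL.AB3 in
theorem R_eq (m : ℕ) : eqF (R (2 * m + 1)) = SR (2 * m) / (1 - GL.AB3.q) := by
  rw [R, SR, sum_div, map_sum]
  refine sum_congr rfl fun j _ => ?_
  simp only [qn, map_mul, map_div₀, map_sub, map_one, map_pow, poch_map, eq_q, eq_a, eq_b]
  rw [Pool.Agent.R439.AB.PR]
  ring

open GL.AB3 in
theorem M_eq (n : ℕ) : toA (M n) = MM n := by
  have h : jq (∑ i ∈ range n, Polynomial.X ^ i) = ∑ i ∈ range n, jq Polynomial.X ^ i := by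
    rw [map_sum]; exact sum_congr rfl fun i _ => map_pow _ _ _
  rw [M, MM, map_mul, map_mul, map_mul, map_mul, map_sub, map_sub, map_sub, map_mul, map_one,
    map_pow, toA_X0, toA_X1, toA_X2, toA_aeval, map_sum, map_mul, h]
  congr 3
  funext i
  rw [map_pow, toA_X0]

open GL.AB3 in
/-- **Answer to Q1**: `L_n ≡ R_n (mod M_n)` for every odd `n ≥ 1`, in the sense of the problem:
`L_n - R_n = M_n * U / V` with polynomials `U, V` in `q, a, b`, `V` coprime to `M_n`. -/
theorem result : ∀ n : ℕ, Odd n → ∃ U V : P3, V ≠ 0 ∧ IsRelPrime V (M n) ∧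
    L n - R n = algebraMap P3 F (M n) * (algebraMap P3 F U / algebraMap P3 F V) := by
  intro n hn
  obtain ⟨m, rfl⟩ := hn
  rcases Nat.eq_zero_or_pos m with hm | hm
  · subst hm
    refine ⟨0, 1, one_ne_zero, isRelPrime_one_left, ?_⟩
    apply eqF.injective
    have h : SL 0 = SR (2 * 0) := by
      simp [SL, SR, Pool.Agent.R439.AB.PL, Pool.Agent.R439.AB.PR, poch]
    rw [map_sub, L_eq, R_eq, h, sub_self, RingHom.map_zero, zero_div]
    rw [mul_zero (algebraMap P3 F (M (2 * 0 + 1))), map_zero]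
  · obtain ⟨c, d, h1, h2, h3⟩ := main hm
    have hc : toA (eqA.symm c) = c := eqA.apply_symm_apply c
    have hd : toA (eqA.symm d) = d := eqA.apply_symm_apply d
    refine ⟨eqA.symm c, eqA.symm d, fun h => h1 ?_, isRelPrime_of ?_, ?_⟩
    · rw [← hd, h, map_zero]
    · rw [hd, M_eq]; exact h2
    · apply eqF.injective
      rw [map_sub, L_eq, R_eq, ← sub_div, h3, map_mul, map_div₀, eqF_am, eqF_am, eqF_am, M_eq, hc,
        hd]

end Pool.Agent.Results.MP_19aea4_nt.AllOddModuli
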